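import Pool.Agent.H240.GU.Def6
import Pool.Graph.R_seed8.Y117.EG.KP
import Pool.Graph.R_seed8.Y380.EG.PK

/-!
# Ergodicity in the class `Cls3` (EV-5, helper746)
(adapted from `H240/CG/ErgA` (helper284) and `H240/CG/ErgB` (helper307))
-/

set_option autoImplicit false
set_option linter.all false

open Set Filter Topology MeasureTheory
open scoped ContDiff

noncomputable section

namespace Pool.Agent.H746.EV

open Pool.Agent.Y262.EG Pool.Agent.Y262.EX Pool.Agent.H240.CG Pool.Agent.H240.EV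
open Pool.Agent.Y117.EG (norm_HH)

/-- the curvature on the unit tangent bundle -/
def StKP3 : Prop :=
  ∀ (M P : Type) [MetricSpace M] [CompactSpace M] [MetricSpace P] [CompactSpace P]
    (Ω : Set ℂ) (φ : ℂ → ℝ) (pr : ℂ → M) (q : Y → P) (Γ ℓ : ℂ → ℂ) (L δ δ' κ C x0 : ℝ) (g : ℝ → ℝ),
    IsUT Ω φ pr q → Cls3 Ω φ pr Γ ℓ L δ δ' κ C x0 g →
    (∀ p ∈ YO Ω, kP Ω φ q (q p) = -curv φ p.1 ∧ dW Ω q (HH φ) (kP Ω φ q) (q p) =
      -fderiv ℝ (curv φ) p.1 (HH φ p).1) ∧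
    AcP Ω q (kP Ω φ q) ∧ (∀ x, 0 ≤ kP Ω φ q x) ∧ (∀ x, dW Ω q (fun _ => VV) (kP Ω φ q) x = 0) ∧
    ∀ x, |dW Ω q (HH φ) (kP Ω φ q) x| ≤ C * (kP Ω φ q x) ^ (39 / 40 : ℝ)

/-- the unit tangent bundle satisfies the hypotheses of the abstract theorem -/
def StPk3 : Prop :=
  ∀ (M P : Type) [MetricSpace M] [CompactSpace M] [MetricSpace P] [CompactSpace P]
    [MeasurableSpace P] [BorelSpace P] (Ω : Set ℂ) (φ : ℂ → ℝ) (pr : ℂ → M) (q : Y → P)
    (m : Measure P) (Fl : ℝ → Y → Y) (Γ ℓ : ℂ → ℂ) (L δ δ' κ C x0 : ℝ) (g : ℝ → ℝ), IsUT Ω φ pr q →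
    IsLiou Ω φ q m → IsGeo Ω φ Fl → Cls3 Ω φ pr Γ ℓ L δ δ' κ C x0 g →
    ∃ c c1 s s1 : ℝ → P → ℝ, Pk m (FlP Ω q Fl) (AcP Ω q) (dW Ω q (XX φ)) (dW Ω q (HH φ))
      (dW Ω q fun _ => VV) (kP Ω φ q) c c1 s s1

/-- a locally constant invariant function is constant -/
def StGlob3 : Prop :=
  ∀ (M P : Type) [MetricSpace M] [CompactSpace M] [MetricSpace P] [CompactSpace P]
    [MeasurableSpace P] [BorelSpace P] (Ω : Set ℂ) (φ : ℂ → ℝ) (pr : ℂ → M) (q : Y → P)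
    (m : Measure P) (Fl : ℝ → Y → Y) (Γ ℓ : ℂ → ℂ) (L δ δ' κ C x0 : ℝ) (g : ℝ → ℝ), IsUT Ω φ pr q →
    IsLiou Ω φ q m → IsGeo Ω φ Fl → Cls3 Ω φ pr Γ ℓ L δ δ' κ C x0 g →
    ∀ f : P → ℝ, Measurable f → (∀ t x, f (FlP Ω q Fl t x) = f x) →
    (∀ p0 ∈ YO Ω, curv φ p0.1 < 0 → ∃ (r a : ℝ), 0 < r ∧ Metric.ball p0 r ⊆ YO Ω ∧
      ∀ᵐ p ∂volume.restrict (Metric.ball p0 r), f (q p) = a) →
    ∃ a : ℝ, ∀ᵐ x ∂m, f x = a

theorem kp3 : StFrame → StEt → StDWP → StKP3 := by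
  intro hF hE hD M P _ _ _ _ Ω φ pr q Γ ℓ L δ δ' κ C x0 g hU hC
  obtain ⟨-, -, hcv, -⟩ := hF Ω φ hU.opn hU.smooth
  obtain ⟨-, -, hE3⟩ := hE M P Ω φ pr q hU
  obtain ⟨hl, -, hdw⟩ := hD M P Ω φ pr q hU
  have hYO : IsOpen (YO Ω) := hU.opn.preimage continuous_fst
  have hkq : ∀ p ∈ YO Ω, kP Ω φ q (q p) = -curv φ p.1 := by
    intro p hp
    obtain ⟨U, A, hUo, hpU, hUs, hA, hAp, hAy⟩ :=
      hE3 p hp (lft Ω q (q p)) (hl (q p)).1 (hl (q p)).2.symm
    have h1 := (hAy p hpU).2.2.1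
    unfold kP
    rw [← hAp, h1]
  have hAc : AcP Ω q (kP Ω φ q) := by
    unfold AcP
    have h1 : ContDiffOn ℝ 1 (fun p : Y => -curv φ p.1) (YO Ω) := by
      have h2 : ContDiffOn ℝ ∞ (fun p : Y => curv φ p.1) (YO Ω) :=
        hcv.comp contDiff_fst.contDiffOn (fun p hp => hp)
      exact (h2.of_le (by exact_mod_cast le_top)).neg
    exact h1.congr hkq
  have hd : ∀ W, Fr φ W → ∀ p ∈ YO Ω, dW Ω q W (kP Ω φ q) (q p) =
      -fderiv ℝ (curv φ) p.1 (W p).1 := by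
    intro W hW p hp
    rw [((hdw _ hAc).2 W hW).1 p hp]
    have h1 : (fun p => kP Ω φ q (q p)) =ᶠ[𝓝 p] fun p : Y => -curv φ p.1 := by
      filter_upwards [hYO.mem_nhds hp] with y hy
      exact hkq y hy
    rw [h1.fderiv_eq]
    have h2 : DifferentiableAt ℝ (curv φ) p.1 :=
      (hcv.contDiffAt (hU.opn.mem_nhds hp)).differentiableAt (by simp)
    have h3 : HasFDerivAt (fun p : Y => -curv φ p.1)
        (-((fderiv ℝ (curv φ) p.1).comp (ContinuousLinearMap.fst ℝ ℂ ℝ))) p :=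
      (h2.hasFDerivAt.comp p hasFDerivAt_fst).neg
    rw [h3.fderiv]
    simp
  have hsur : ∀ x : P, ∃ p ∈ YO Ω, q p = x := fun x => ⟨lft Ω q x, (hl x).1, (hl x).2⟩
  refine ⟨fun p hp => ⟨hkq p hp, hd _ (Or.inr (Or.inl rfl)) p hp⟩, hAc, fun x => ?_, fun x => ?_,
    fun x => ?_⟩
  · obtain ⟨p, hp, rfl⟩ := hsur x
    rw [hkq p hp]
    have := hC.neg p.1 hp
    linarith
  · obtain ⟨p, hp, rfl⟩ := hsur x
    rw [hd _ (Or.inr (Or.inr rfl)) p hp]
    simp [VV]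
  · obtain ⟨p, hp, rfl⟩ := hsur x
    rw [hd _ (Or.inr (Or.inl rfl)) p hp, hkq p hp, abs_neg]
    have h1 := hC.der p.1 hp
    have h2 : |fderiv ℝ (curv φ) p.1 (HH φ p).1| ≤ ‖fderiv ℝ (curv φ) p.1‖ * ‖(HH φ p).1‖ :=
      (fderiv ℝ (curv φ) p.1).le_opNorm _
    rw [norm_HH] at h2
    have h3 : |curv φ p.1| = -curv φ p.1 := abs_of_nonpos (hC.neg p.1 hp)
    rw [← h3]
    calc |fderiv ℝ (curv φ) p.1 (HH φ p).1|
        ≤ ‖fderiv ℝ (curv φ) p.1‖ * Real.exp (-φ p.1) := h2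
      _ = Real.exp (-φ p.1) * ‖fderiv ℝ (curv φ) p.1‖ := mul_comm _ _
      _ ≤ C * |curv φ p.1| ^ (39 / 40 : ℝ) := h1

/-- the unit tangent bundle satisfies the hypotheses of the abstract theorem -/
theorem pk3 : StUniq → StFrame → StCoc → StVarUp → StEt → StFinP → StDWP → StAlgP → StDens →
    StDvP → StFlP → StMpP → StAlP → StCocP → StKP3 → StClP3 → StPk3 := by
  intro _ _ hCoc hVar _ hFin hDW hAlg hDens hDv hFlP hMp hAl hCocP hKP hCl
  intro M P _ _ _ _ _ _ Ω φ pr q m Fl Γ ℓ L δ δ' κ C x0 g hUT hLiou hGeo hCls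
  obtain ⟨c, c1, s, s1, hc⟩ := hCoc Ω φ Fl hUT.opn hUT.smooth hGeo
  obtain ⟨hfin, -, -⟩ := hFin M P Ω φ pr q m hUT hLiou
  obtain ⟨hlft, -, hdW⟩ := hDW M P Ω φ pr q hUT
  obtain ⟨-, hflc, hfl0, hfla⟩ := hFlP M P Ω φ pr q Fl hUT hGeo
  obtain ⟨hone, haddA, hmulA, hinvA⟩ := hAlg M P Ω φ pr q hUT
  obtain ⟨hon, hcc, hcc1, hcs, hcs1, hjac, hcmp⟩ :=
    hCocP M P Ω φ pr q m Fl hUT hLiou hGeo c c1 s s1 hc
  obtain ⟨hkq, hkA, hk0, hkV, hkH⟩ := hKP M P Ω φ pr q Γ ℓ L δ δ' κ C x0 g hUT hCls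
  obtain ⟨C', hC'⟩ := hCl M P Ω φ pr q m Fl Γ ℓ L δ δ' κ C x0 g hUT hLiou hGeo hCls
  have hopen : IsOpen (YO Ω) := hUT.opn.preimage continuous_fst
  have huq : ∀ T, ∀ p ∈ YO Ω, uu (onP Ω q c) (onP Ω q s) T (q p) = uu c s T p := by
    intro T p hp
    unfold uu
    rw [(hon T p hp).1, (hon T p hp).2.2.1]
  refine ⟨onP Ω q c, onP Ω q c1, onP Ω q s, onP Ω q s1, ?_⟩
  refine
    { fin := hfin
      flc := hflc
      fl0 := hfl0
      fla := hfla
      flm := fun t => hMp M P Ω φ pr q m Fl hUT hLiou hGeo t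
      ct := fun F hF => (hdW F hF).1
      cst := hone
      add := haddA
      mul := hmulA
      inv := hinvA
      dvX := hDv M P Ω φ pr q m hUT hLiou (XX φ) (Or.inl rfl)
      dvH := hDv M P Ω φ pr q m hUT hLiou (HH φ) (Or.inr (Or.inl rfl))
      dvV := hDv M P Ω φ pr q m hUT hLiou (fun _ => VV) (Or.inr (Or.inr rfl))
      dens := hDens M P Ω φ pr q m hUT hfin
      cmp := fun F hF t => ⟨(hAl M P Ω φ pr q Fl hUT hGeo F hF).1 t, fun x => hcmp F hF t x⟩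
      alg := fun F hF x t => (hAl M P Ω φ pr q Fl hUT hGeo F hF).2 x t
      kA := hkA
      k0 := hk0
      kV := hkV
      kH := ⟨C, hkH⟩
      jc := ⟨hcc, hcc1, hcs, hcs1⟩
      jac := hjac
      uA := ?_
      cl := ⟨κ, C', hCls.posκ, hC'⟩ }
  intro T hT
  obtain ⟨hsm, hfd⟩ := hVar Ω φ Fl hUT.opn hUT.smooth hGeo hCls.neg c c1 s s1 hc T hT
  refine ⟨(hsm.of_le (by exact_mod_cast le_top)).congr (fun p hp => huq T p hp), fun x => ?_⟩
  have hp : lft Ω q x ∈ YO Ω := (hlft x).1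
  have hev : (fun p => uu (onP Ω q c) (onP Ω q s) T (q p)) =ᶠ[𝓝 (lft Ω q x)] uu c s T := by
    filter_upwards [hopen.mem_nhds hp] with p hp'
    exact huq T p hp'
  have hfe := hev.fderiv_eq (𝕜 := ℝ)
  have hkk : ∀ t, dW Ω q (HH φ) (kP Ω φ q) (FlP Ω q Fl t x) =
      -fderiv ℝ (curv φ) (Fl t (lft Ω q x)).1 (HH φ (Fl t (lft Ω q x))).1 := fun t =>
    (hkq (Fl t (lft Ω q x)) (hGeo.maps t _ hp)).2
  constructor
  · have h1 : dW Ω q (fun _ => VV) (uu (onP Ω q c) (onP Ω q s) T) x =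
        fderiv ℝ (uu c s T) (lft Ω q x) VV := by
      unfold dW
      rw [hfe]
    rw [h1, (hfd _ hp).1, ← intervalIntegral.integral_neg]
    refine intervalIntegral.integral_congr fun t _ => ?_
    rw [hkk t]
    simp only [yy, uu, onP]
    ring
  · have h1 : dW Ω q (HH φ) (uu (onP Ω q c) (onP Ω q s) T) x =
        fderiv ℝ (uu c s T) (lft Ω q x) (HH φ (lft Ω q x)) := by
      unfold dW
      rw [hfe]
    rw [h1, (hfd _ hp).2, ← intervalIntegral.integral_neg]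
    refine intervalIntegral.integral_congr fun t _ => ?_
    rw [hkk t]
    simp only [yy, uu, onP]
    ring

theorem glob3 : StFrame → StEt → StFinP → StFlP → StMpP → StKP3 → StInv → StClP3 → StGlob1 →
    StCross3 → StGlob3 := by
  intro hFr _ hFin hFlP hMp hKP hInv hCl hG1 hCross
  intro M P _ _ _ _ _ _ Ω φ pr q m Fl Γ ℓ L δ δ' κ C x0 g hUT hLi hGeo hCls f hf hinv hloc
  obtain ⟨a, ha⟩ := hG1 M P Ω φ pr q hUT f hloc
  obtain ⟨hFl1, -, -, -⟩ := hFlP M P Ω φ pr q Fl hUT hGeo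
  obtain ⟨hk1, -, hk3, -, -⟩ := hKP M P Ω φ pr q Γ ℓ L δ δ' κ C x0 g hUT hCls
  have hδ' : 0 < δ' := hCls.posδ.trans hCls.ltδ
  have hx0p := hCls.x0p
  have hx0L := hCls.x0L
  have hcr := hCross M P Ω φ pr q Fl Γ ℓ L δ δ' κ C x0 g hUT hGeo hCls f (by
    intro t p hp
    rw [← hFl1 t p hp, hinv]) a ha
  -- the base point
  set z0 : ℂ := ((-(δ' / 2) : ℝ) : ℂ) with hz0
  have hz0re : z0.re = -(δ' / 2) := Complex.ofReal_re _
  have hz0s : z0 ∈ Stp L δ' := by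
    constructor
    · rw [hz0re]; linarith
    · rw [hz0re]; linarith [hCls.posL]
  have hz0n : z0.re ≠ x0 := by
    rw [hz0re]
    linarith
  set a0 : ℝ := a (pr (Γ z0)) with ha0
  have hstO : IsOpen (Stp L δ') :=
    (isOpen_lt continuous_const Complex.continuous_re).inter
      (isOpen_lt Complex.continuous_re continuous_const)
  -- the strip
  have hstrip : ∀ z ∈ Ω, curv φ z < 0 → ∀ w ∈ Stp L δ', pr (Γ w) = pr z → a (pr z) = a0 := by
    intro z hz hcz w hw hwz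
    have h1 := (hInv M P Ω φ pr q hUT (Γ w) (hCls.maps w hw) z hz hwz).1
    rw [← hwz]
    by_cases h2 : w.re = x0
    · obtain ⟨r, hr, -, hb2, -⟩ := ha (Γ w, 0) (hCls.maps w hw) (by rw [h1]; exact hcz)
      have hca : ContinuousAt Γ w :=
        ((hCls.hol w hw).differentiableAt (hstO.mem_nhds hw)).continuousAt
      obtain ⟨ε, hε, hΓ⟩ := Metric.continuousAt_iff.1 hca r hr
      set η : ℝ := min (ε / 2) (δ' / 2) with hη
      have hη0 : 0 < η := lt_min (by linarith) (by linarith)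
      have hη1 : η < ε := lt_of_le_of_lt (min_le_left _ _) (by linarith)
      have hη2 : η < δ' := lt_of_le_of_lt (min_le_right _ _) (by linarith)
      set y : ℂ := w + (η : ℂ) with hy
      have hyre : y.re = x0 + η := by rw [hy, Complex.add_re, Complex.ofReal_re, h2]
      have hys : y ∈ Stp L δ' := ⟨by rw [hyre]; linarith, by rw [hyre]; linarith⟩
      have hyb : ((Γ y, (0 : ℝ)) : Y) ∈ Metric.ball ((Γ w, 0) : Y) r := by
        rw [Metric.mem_ball, Prod.dist_eq]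
        change max (dist (Γ y) (Γ w)) (dist (0 : ℝ) 0) < r
        rw [dist_self]
        refine max_lt (hΓ ?_) hr
        rw [dist_eq_norm, hy, add_sub_cancel_left, Complex.norm_real, Real.norm_of_nonneg hη0.le]
        exact hη1
      rw [← (hb2 (Γ y, 0) hyb).2]
      exact (hcr y hys z0 hz0s (by rw [hyre]; linarith) hz0n).2
    · exact (hcr w hw z0 hz0s h2 hz0n).2
  -- the surface is connected
  have hopen : ∀ R : ℝ → Prop, IsOpen {x : M | ∃ z ∈ Ω, pr z = x ∧ curv φ z < 0 ∧ R (a x)} := by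
    intro R
    rw [isOpen_iff_forall_mem_open]
    rintro x ⟨z, hz, rfl, hcz, hR⟩
    obtain ⟨r, hr, hball, hb2, -⟩ := ha (z, 0) hz hcz
    have hmem : ∀ z' ∈ Metric.ball z r, ((z', 0) : Y) ∈ Metric.ball ((z, 0) : Y) r := by
      intro z' hz'
      rw [Metric.mem_ball, Prod.dist_eq, dist_self]
      exact max_lt hz' hr
    have hsub : Metric.ball z r ⊆ Ω := fun z' hz' => hball (hmem z' hz')
    refine ⟨pr '' Metric.ball z r, ?_, hUT.opnp _ Metric.isOpen_ball hsub,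
      ⟨z, Metric.mem_ball_self hr, rfl⟩⟩
    rintro _ ⟨z', hz', rfl⟩
    have h3 := hb2 _ (hmem z' hz')
    refine ⟨z', hsub hz', rfl, h3.1, ?_⟩
    rw [h3.2]
    exact hR
  have hall : ∀ z ∈ Ω, curv φ z < 0 → a (pr z) = a0 := by
    by_contra hne
    push Not at hne
    obtain ⟨z1, hz1, hc1, ha1⟩ := hne
    have himO : IsOpen (Γ '' Stp L δ') := by
      rw [isOpen_iff_mem_nhds]
      rintro _ ⟨z, hz, rfl⟩
      have h1 : HasStrictDerivAt Γ (deriv Γ z) z :=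
        (hCls.hol.analyticAt (hstO.mem_nhds hz)).hasStrictDerivAt
      have h2 : deriv Γ z ≠ 0 := by
        rw [← hCls.lexp z hz]
        exact Complex.exp_ne_zero _
      rw [← h1.map_nhds_eq h2]
      exact image_mem_map (hstO.mem_nhds hz)
    have himS : Γ '' Stp L δ' ⊆ Ω := by
      rintro _ ⟨z, hz, rfl⟩
      exact hCls.maps z hz
    have hpre := hCls.conn
      ({x : M | ∃ z ∈ Ω, pr z = x ∧ curv φ z < 0 ∧ a x = a0} ∪ pr '' (Γ '' Stp L δ'))
      {x : M | ∃ z ∈ Ω, pr z = x ∧ curv φ z < 0 ∧ a x ≠ a0}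
      ((hopen fun y => y = a0).union (hUT.opnp _ himO himS)) (hopen fun y => y ≠ a0)
      (by
        intro x _
        have hx : x ∈ pr '' Ω := hUT.surjp ▸ mem_univ x
        obtain ⟨z, hz, rfl⟩ := hx
        rcases (hCls.neg z hz).lt_or_eq with h | h
        · by_cases h2 : a (pr z) = a0
          · exact Or.inl (Or.inl ⟨z, hz, rfl, h, h2⟩)
          · exact Or.inr ⟨z, hz, rfl, h, h2⟩
        · obtain ⟨w, hw0, hw2⟩ := hCls.zero z hz h
          exact Or.inl (Or.inr ⟨Γ w, ⟨w, ⟨by rw [hw0]; linarith, by rw [hw0]; linarith⟩, rfl⟩, hw2⟩))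
      ⟨pr (Γ z0), mem_univ _, Or.inr ⟨Γ z0, ⟨z0, hz0s, rfl⟩, rfl⟩⟩
      ⟨pr z1, mem_univ _, z1, hz1, rfl, hc1, ha1⟩
    obtain ⟨x, -, hxU, z, hz, hzx, hcz, hax⟩ := hpre
    rcases hxU with ⟨z', -, -, -, hax'⟩ | ⟨_, ⟨w, hw, rfl⟩, hwx⟩
    · exact hax hax'
    · apply hax
      rw [← hzx]
      exact hstrip z hz hcz w hw (hwx.trans hzx.symm)
  -- the exceptional set where the curvature is negative
  set E : Set P := {x | 0 < kP Ω φ q x ∧ f x ≠ a0} with hE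
  have hEnull : m E = 0 := by
    set B0 : Set Y := {p | p ∈ YO Ω ∧ curv φ p.1 < 0 ∧ f (q p) ≠ a0} with hB0
    have hB0null : volume B0 = 0 := by
      refine measure_null_of_locally_null _ ?_
      rintro p0 ⟨hp0, hc0, -⟩
      obtain ⟨r, hr, -, -, hae⟩ := ha p0 hp0 hc0
      refine ⟨B0 ∩ Metric.ball p0 r, inter_mem self_mem_nhdsWithin
        (nhdsWithin_le_nhds (Metric.ball_mem_nhds _ hr)), ?_⟩
      rw [hall p0.1 hp0 hc0, ae_iff, Measure.restrict_apply' Metric.isOpen_ball.measurableSet]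
        at hae
      refine measure_mono_null ?_ hae
      rintro p ⟨hp, hpb⟩
      exact ⟨hp.2.2, hpb⟩
    have hYO : IsOpen (YO Ω) := hUT.opn.preimage continuous_fst
    have hB1 := ((hFin M P Ω φ pr q m hUT hLi).2.2 (toMeasurable volume B0 ∩ YO Ω)
      ((measurableSet_toMeasurable _ _).inter hYO.measurableSet) inter_subset_right).2.1
      (measure_mono_null inter_subset_left (by rw [measure_toMeasurable]; exact hB0null))
    refine measure_mono_null ?_ hB1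
    rintro x ⟨hkx, hfx⟩
    have hx : x ∈ q '' YO Ω := hUT.surjq ▸ mem_univ x
    obtain ⟨p, hp, rfl⟩ := hx
    rw [(hk1 p hp).1] at hkx
    exact ⟨p, ⟨subset_toMeasurable _ _ ⟨hp, by linarith, hfx⟩, hp⟩, rfl⟩
  -- the vectors which never leave the flat region
  set Zs : Set P := {x | ∀ t : ℝ, kP Ω φ q (FlP Ω q Fl t x) = 0} with hZs
  have hZnull : m Zs = 0 := by
    obtain ⟨C', hC'⟩ := hCl M P Ω φ pr q m Fl Γ ℓ L δ δ' κ C x0 g hUT hLi hGeo hCls
    have h1 : ∀ n : ℕ, 1 ≤ n → m Zs ≤ ENNReal.ofReal (C' / Real.sqrt n) := by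
      intro n hn
      refine (measure_mono ?_).trans (hC' n (by exact_mod_cast hn))
      intro x hx t _
      rw [hx t]
      exact hCls.posκ
    have h2 : Tendsto (fun n : ℕ => ENNReal.ofReal (C' / Real.sqrt n)) atTop (𝓝 0) := by
      have h3 : Tendsto (fun n : ℕ => C' / Real.sqrt n) atTop (𝓝 0) := by
        apply Tendsto.const_div_atTop
        exact Real.tendsto_sqrt_atTop.comp tendsto_natCast_atTop_atTop
      have h4 := ENNReal.tendsto_ofReal h3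
      rwa [ENNReal.ofReal_zero] at h4
    exact le_antisymm (ge_of_tendsto h2 (eventually_atTop.mpr ⟨1, h1⟩)) zero_le
  refine ⟨a0, ?_⟩
  rw [ae_iff]
  have hun : m (Zs ∪ ⋃ t : ℚ, FlP Ω q Fl (t : ℝ) ⁻¹' E) = 0 := by
    rw [measure_union_null_iff]
    refine ⟨hZnull, ?_⟩
    rw [measure_iUnion_null_iff]
    intro t
    exact ((hMp M P Ω φ pr q m Fl hUT hLi hGeo (t : ℝ)).quasiMeasurePreserving).preimage_null hEnull
  refine measure_mono_null ?_ hun
  intro x hx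
  have hfx : ¬ f x = a0 := hx
  by_cases hxZ : x ∈ Zs
  · exact Or.inl hxZ
  · right
    have hxq : x ∈ q '' YO Ω := hUT.surjq ▸ mem_univ x
    obtain ⟨p, hp, rfl⟩ := hxq
    have hkt : ∀ t, kP Ω φ q (FlP Ω q Fl t (q p)) = -curv φ (Fl t p).1 := by
      intro t
      rw [hFl1 t p hp, (hk1 _ (hGeo.maps t p hp)).1]
    have hcont : Continuous fun t : ℝ => -curv φ (Fl t p).1 := by
      refine Continuous.neg ?_
      rw [continuous_iff_continuousAt]
      intro t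
      have h1 : ContinuousAt (curv φ) (Fl t p).1 :=
        ((hFr Ω φ hUT.opn hUT.smooth).2.2.1.continuousOn).continuousAt
          (hUT.opn.mem_nhds (hGeo.maps t p hp))
      have h2 : ContinuousAt (fun τ => (Fl τ p).1) t :=
        continuous_fst.continuousAt.comp (hGeo.ode t p hp).continuousAt
      exact ContinuousAt.comp (f := fun τ => (Fl τ p).1) (g := curv φ) h1 h2
    have hex : ∃ t : ℝ, 0 < -curv φ (Fl t p).1 := by
      have h3 : ¬ ∀ t : ℝ, kP Ω φ q (FlP Ω q Fl t (q p)) = 0 := hxZ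
      push Not at h3
      obtain ⟨t, ht⟩ := h3
      refine ⟨t, ?_⟩
      rw [← hkt]
      exact lt_of_le_of_ne (hk3 _) (Ne.symm ht)
    have hop : IsOpen {t : ℝ | 0 < -curv φ (Fl t p).1} := isOpen_lt continuous_const hcont
    obtain ⟨t, ht⟩ := (Rat.denseRange_cast (𝕜 := ℝ)).exists_mem_open hop hex
    refine mem_iUnion.mpr ⟨t, ?_, ?_⟩
    · change 0 < kP Ω φ q (FlP Ω q Fl (t : ℝ) (q p))
      rw [hkt]
      exact ht
    · change f (FlP Ω q Fl (t : ℝ) (q p)) ≠ a0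
      rw [hinv]
      exact hfx

theorem erg_of3 (h1 : StFlP) (h3 : StPk3) (h4 : StKill) (h5 : StLoc) (h6 : StGlob3) :
    StErg3 := by
  classical
  intro M P _ _ _ _ _ _ Ω φ pr q m Fl Γ ℓ L δ δ' κ C x0 g hUT hLi hGeo hCls A hA hinv
  obtain ⟨c, c1, s, s1, hPk⟩ := h3 M P Ω φ pr q m Fl Γ ℓ L δ δ' κ C x0 g hUT hLi hGeo hCls
  obtain ⟨hfl1, -, -, -⟩ := h1 M P Ω φ pr q Fl hUT hGeo
  set f : P → ℝ := A.indicator fun _ => 1 with hf
  have hfm : Measurable f := measurable_const.indicator hA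
  have hfb : ∃ C, ∀ x, |f x| ≤ C := by
    refine ⟨1, fun x => ?_⟩
    rw [hf]
    by_cases hx : x ∈ A
    · rw [indicator_of_mem hx, abs_one]
    · rw [indicator_of_notMem hx, abs_zero]
      exact zero_le_one
  have hff : ∀ t x, f (FlP Ω q Fl t x) = f x := by
    intro t x
    have hx : x ∈ q '' YO Ω := by
      rw [hUT.surjq]
      exact mem_univ x
    obtain ⟨p, hp, rfl⟩ := hx
    rw [hfl1 t p hp]
    have h := hinv t p hp
    by_cases hq : q p ∈ A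
    · rw [hf, indicator_of_mem hq, indicator_of_mem (h.2 hq)]
    · rw [hf, indicator_of_notMem hq, indicator_of_notMem (fun hc => hq (h.1 hc))]
  have hloc : ∀ p0 ∈ YO Ω, curv φ p0.1 < 0 → ∃ (r a : ℝ), 0 < r ∧ Metric.ball p0 r ⊆ YO Ω ∧
      ∀ᵐ p ∂volume.restrict (Metric.ball p0 r), f (q p) = a := by
    refine h5 M P Ω φ pr q m hUT hLi f hfm hfb ?_
    intro χ ε hχ hε hχε W hW
    obtain ⟨k1, k2, k3⟩ := h4 P m (FlP Ω q Fl) (AcP Ω q) (dW Ω q (XX φ)) (dW Ω q (HH φ))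
      (dW Ω q fun _ => VV) (kP Ω φ q) c c1 s s1 hPk f hfm hfb hff χ ε hχ hε hχε
    rcases hW with rfl | rfl | rfl
    · exact k1
    · exact k2
    · exact k3
  obtain ⟨a, ha⟩ := h6 M P Ω φ pr q m Fl Γ ℓ L δ δ' κ C x0 g hUT hLi hGeo hCls f hfm hff hloc
  by_cases h0 : a = 0
  · left
    refine measure_mono_null ?_ ha
    intro x hx
    show ¬ f x = a
    rw [h0, hf, indicator_of_mem hx]
    exact one_ne_zero
  · by_cases h10 : a = 1
    · right
      refine measure_mono_null ?_ ha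
      intro x hx
      show ¬ f x = a
      rw [h10, hf, indicator_of_notMem hx]
      exact zero_ne_one
    · left
      refine measure_mono_null ?_ ha
      intro x hx
      show ¬ f x = a
      rw [hf, indicator_of_mem hx]
      exact fun hc => h10 hc.symm

/-- EV-5: ergodicity in the class -/
theorem stErg3 (h1 : StClP3) (h2 : StCross3) : StErg3 := by
  have hk : StKP3 := kp3 tFrame tEt (tDWP tEt)
  have hp : StPk3 := pk3 tUniq tFrame tCoc tVarUp tEt (tFinP tEt) (tDWP tEt) tAlgP (tDens tEt)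
    (tDvP tEt) (tFlP tEt) (tMpP tEt tLiouUp) (tAlP tEt) (tCocP tEt) hk h1
  exact erg_of3 (tFlP tEt) hp tKill (tLoc tEt)
    (glob3 tFrame tEt (tFinP tEt) (tFlP tEt) (tMpP tEt tLiouUp) hk tInv h1
      (Pool.Agent.Y61.EG.glob1 tFrame tEt) h2)

end Pool.Agent.H746.EV
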